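import Pool.Agent.N662.SE.Stm2
import Pool.Agent.N700.SE.UPD

/-!
# SE/UPX: the upper bound `ν ≤ (1+ξ)/2` from CONC, ID, RATEX, CURV, PP (helper427)

A port of `Pool/Agent/N700/SE/UPD.lean` (helper700) to a general exponent `ξ`.
-/

set_option autoImplicit false

open MeasureTheory ProbabilityTheory Filter Topology

namespace Pool.Agent.N427.SE.UPX

open TH967.DP Pool.Agent.N662.SE Pool.Agent.N700.SE.UPD

lemma asyX {d : ℕ} (hd : 1 ≤ d) (C1 κ b c c1 ξ : ℝ) (hκ : 0 < κ) (hξ : 0 < ξ) (hc1 : ξ < c1)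
    (hcc : c < c1) (hb : c1 < 2 * b - 1) : ∀ᶠ n : ℕ in atTop,
    2 * d * (n + 1) * Real.exp (-(κ / 2 * (n : ℝ) ^ (2 * b - 1)) + 3 * (n : ℝ) ^ c1 +
      C1 * (n : ℝ) ^ ξ * Real.log (n + 1)) ≤ Real.exp (-(n : ℝ) ^ c) := by
  have hd' : (0 : ℝ) < d := by exact_mod_cast hd
  filter_upwards [ev_log (2 * d) c1 (by positivity) (by linarith),
    ev_log 1 ((c1 - ξ) / 2) one_pos (by linarith),
    ev_pow |C1| (ξ + (c1 - ξ) / 2) c1 (by linarith),
    ev_pow 1 c c1 hcc, ev_pow (12 / κ) c1 (2 * b - 1) hb, eventually_ge_atTop 1]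
    with n e1 e2 e3 e4 e5 hn1
  have hn0 : (1 : ℝ) ≤ n := by exact_mod_cast hn1
  have hnp : (0 : ℝ) < n := by linarith
  have h1 : 2 * (d : ℝ) * (n + 1) ≤ Real.exp ((n : ℝ) ^ c1) := by
    rw [← Real.exp_log (show 0 < 2 * (d : ℝ) * (n + 1) by positivity)]
    exact Real.exp_le_exp.2 e1
  rw [one_mul] at e2 e4
  have h2 : C1 * (n : ℝ) ^ ξ * Real.log (n + 1) ≤ (n : ℝ) ^ c1 := by
    refine le_trans ?_ e3
    have hl : 0 ≤ Real.log ((n : ℝ) + 1) := Real.log_nonneg (by linarith)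
    calc C1 * (n : ℝ) ^ ξ * Real.log (n + 1) ≤ |C1| * (n : ℝ) ^ ξ * Real.log (n + 1) := by
          apply mul_le_mul_of_nonneg_right _ hl
          exact mul_le_mul_of_nonneg_right (le_abs_self _) (Real.rpow_nonneg hnp.le _)
      _ ≤ |C1| * (n : ℝ) ^ ξ * (n : ℝ) ^ ((c1 - ξ) / 2) :=
          mul_le_mul_of_nonneg_left e2 (by positivity)
      _ = |C1| * (n : ℝ) ^ (ξ + (c1 - ξ) / 2) := by
          rw [mul_assoc, ← Real.rpow_add hnp]
  have h3 : 6 * (n : ℝ) ^ c1 ≤ κ / 2 * (n : ℝ) ^ (2 * b - 1) := by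
    have := mul_le_mul_of_nonneg_left e5 (show 0 ≤ κ / 2 by positivity)
    calc 6 * (n : ℝ) ^ c1 = κ / 2 * (12 / κ * (n : ℝ) ^ c1) := by field_simp; ring
      _ ≤ _ := this
  calc 2 * d * (n + 1) * Real.exp (-(κ / 2 * (n : ℝ) ^ (2 * b - 1)) + 3 * (n : ℝ) ^ c1 +
        C1 * (n : ℝ) ^ ξ * Real.log (n + 1)) ≤
        Real.exp ((n : ℝ) ^ c1) * Real.exp (-(κ / 2 * (n : ℝ) ^ (2 * b - 1)) + 3 * (n : ℝ) ^ c1 +
          C1 * (n : ℝ) ^ ξ * Real.log (n + 1)) :=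
        mul_le_mul_of_nonneg_right h1 (Real.exp_pos _).le
    _ = Real.exp ((n : ℝ) ^ c1 + (-(κ / 2 * (n : ℝ) ^ (2 * b - 1)) + 3 * (n : ℝ) ^ c1 +
          C1 * (n : ℝ) ^ ξ * Real.log (n + 1))) := (Real.exp_add _ _).symm
    _ ≤ Real.exp (-(n : ℝ) ^ c) := by
        apply Real.exp_le_exp.2
        linarith

lemma lw_z {d : ℕ} {Ω : Type} (ω : ℕ → (Fin d → ℤ) → Ω → ℝ) (β : ℝ) (h : Fin d → ℝ) (m : ℕ)
    (z : Fin d → ℤ) (x : Ω) : lw ω β h m z 0 x = 0 := by
  unfold lw part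
  simp [energy, pos]

lemma free_z {d : ℕ} {Ω : Type} [MeasurableSpace Ω] (P : Measure Ω)
    (ω : ℕ → (Fin d → ℤ) → Ω → ℝ) (β : ℝ) (h : Fin d → ℝ) : free P ω β h 0 = 0 := by
  unfold free
  simp [lw_z]

/-- one test -/
lemma testX (hc : S_CONC) (hi : S_ID) {d : ℕ} (hd : 1 ≤ d) {Ω : Type} [MeasurableSpace Ω]
    (P : Measure Ω) [IsProbabilityMeasure P] (ω : ℕ → (Fin d → ℤ) → Ω → ℝ) (hω : IsEnv P ω)
    (hexp : ∀ b : ℝ, Integrable (fun x => Real.exp (b * ω 1 0 x)) P) (β : ℝ)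
    {U : Set (Fin d → ℝ)} {ξ α C0 : ℝ} (hξ : 0 < ξ) (hα : 0 < α) (hU : Conc P ω β U ξ α C0)
    (c1 : ℝ) (n : ℕ) (hn : 1 ≤ n) (h' : Fin d → ℝ) (hh' : h' ∈ U) (m : ℕ) (z : Fin d → ℤ)
    (j : ℕ) (hj : j ≤ n) :
    P {x | (n : ℝ) ^ c1 ≤ |lw ω β h' m z j x - free P ω β h' j|} ≤
      ENNReal.ofReal (|C0| * Real.exp (-(α * (n : ℝ) ^ (c1 - ξ)))) := by
  have hnp : (0 : ℝ) < n := by exact_mod_cast hn
  rcases Nat.eq_zero_or_pos j with rfl | hj0
  · have e : {x | (n : ℝ) ^ c1 ≤ |lw ω β h' m z 0 x - free P ω β h' 0|} = ∅ := by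
      ext x
      simp only [Set.mem_ofPred_eq, Set.mem_empty_iff_false, iff_false, not_le]
      rw [lw_z, free_z, sub_zero, abs_zero]
      exact Real.rpow_pos_of_pos hnp _
    rw [e, measure_empty]
    exact zero_le
  have hjp : (0 : ℝ) < j := by exact_mod_cast hj0
  have hjn : (j : ℝ) ≤ n := by exact_mod_cast hj
  obtain ⟨hm, -, -, -⟩ := hc d hd Ω P ω hω hexp β h' m z j
  have hid := hi d hd Ω P ω hω β h' m z j
  set l : ℝ := α * (j : ℝ) ^ (-ξ) with hl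
  have hl0 : 0 < l := mul_pos hα (Real.rpow_pos_of_pos hjp _)
  have hbd : ∫⁻ x, ENNReal.ofReal (Real.exp (l * |lw ω β h' m z j x - free P ω β h' j|)) ∂P ≤
      ENNReal.ofReal C0 := by
    have hg : Measurable fun y : ℝ => ENNReal.ofReal (Real.exp (l * |y - free P ω β h' j|)) := by
      fun_prop
    have h1 := (hid.comp hg).lintegral_eq
    simp only [Function.comp_def] at h1
    rw [h1]
    exact hU h' hh' j hj0
  have hm2 : Measurable fun x =>
      ENNReal.ofReal (Real.exp (l * |lw ω β h' m z j x - free P ω β h' j|)) := by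
    have : Measurable fun y : ℝ => ENNReal.ofReal (Real.exp (l * |y - free P ω β h' j|)) := by
      fun_prop
    exact this.comp hm
  have hsub : {x | (n : ℝ) ^ c1 ≤ |lw ω β h' m z j x - free P ω β h' j|} ⊆
      {x | ENNReal.ofReal (Real.exp (l * (n : ℝ) ^ c1)) ≤
        ENNReal.ofReal (Real.exp (l * |lw ω β h' m z j x - free P ω β h' j|))} := by
    intro x hx
    have hx' : (n : ℝ) ^ c1 ≤ |lw ω β h' m z j x - free P ω β h' j| := hx
    show ENNReal.ofReal (Real.exp (l * (n : ℝ) ^ c1)) ≤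
        ENNReal.ofReal (Real.exp (l * |lw ω β h' m z j x - free P ω β h' j|))
    apply ENNReal.ofReal_le_ofReal
    exact Real.exp_le_exp.2 (mul_le_mul_of_nonneg_left hx' hl0.le)
  refine (measure_mono hsub).trans ?_
  refine (meas_ge_le_lintegral_div hm2.aemeasurable
    (ENNReal.ofReal_pos.2 (Real.exp_pos _)).ne' ENNReal.ofReal_ne_top).trans ?_
  refine (ENNReal.div_le_div_right (hbd.trans (ENNReal.ofReal_le_ofReal (le_abs_self C0))) _).trans
    ?_
  rw [← ENNReal.ofReal_div_of_pos (Real.exp_pos _)]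
  apply ENNReal.ofReal_le_ofReal
  rw [div_eq_mul_inv, ← Real.exp_neg]
  apply mul_le_mul_of_nonneg_left _ (abs_nonneg _)
  apply Real.exp_le_exp.2
  apply neg_le_neg
  rw [hl, mul_assoc]
  apply mul_le_mul_of_nonneg_left _ hα.le
  have h2 : (n : ℝ) ^ (-ξ) ≤ (j : ℝ) ^ (-ξ) :=
    Real.rpow_le_rpow_of_nonpos hjp hjn (by linarith)
  calc (n : ℝ) ^ (c1 - ξ) = (n : ℝ) ^ (-ξ) * (n : ℝ) ^ c1 := by
        rw [← Real.rpow_add hnp]
        congr 1
        ring
    _ ≤ (j : ℝ) ^ (-ξ) * (n : ℝ) ^ c1 :=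
        mul_le_mul_of_nonneg_right h2 (Real.rpow_nonneg hnp.le _)

theorem main (hc : S_CONC) (hi : S_ID) (hr : S_RATEX) (hk : S_CURV) (hp : S_PP) : S_UPX := by
  intro d hd Ω _ P _ ω hω hexp β
  obtain ⟨φ, hφ, hfr, hrate⟩ := hr d hd Ω P ω hω hexp β
  filter_upwards [hk d φ hφ] with h hh
  obtain ⟨v, C, hC, hcurv⟩ := hh
  refine ⟨v, ?_⟩
  intro U hUo hhU ξ α C0 hξ hξ1 hα hU b c hb hb1 hcb
  obtain ⟨C1, hC1⟩ := hrate U ξ α C0 hξ hξ1 hα hU
  obtain ⟨δ, hδ, hball⟩ := Metric.isOpen_iff.1 hUo h hhU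
  obtain ⟨c1, hc1, hc1b⟩ := exists_between (show max c ξ < 2 * b - 1 from
    max_lt hcb (by linarith))
  have hcc : c < c1 := lt_of_le_of_lt (le_max_left _ _) hc1
  have hc12 : ξ < c1 := lt_of_le_of_lt (le_max_right _ _) hc1
  obtain ⟨ε, hε0, hε1⟩ := exists_between (show 0 < c1 - ξ by linarith)
  set κ : ℝ := min (1 / (2 * C + 2)) (δ / 2) with hκ
  have hκ0 : 0 < κ := lt_min (by positivity) (by positivity)
  have hκC : C * κ ≤ 1 / 2 := by
    calc C * κ ≤ C * (1 / (2 * C + 2)) := mul_le_mul_of_nonneg_left (min_le_left _ _) hC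
      _ ≤ 1 / 2 := by
        rw [mul_one_div, div_le_iff₀ (by positivity)]
        linarith
  have hκ1 : κ ≤ 1 := by
    refine (min_le_left _ _).trans ?_
    rw [div_le_iff₀ (by positivity)]
    linarith
  have hκδ : κ < δ := lt_of_le_of_lt (min_le_right _ _) (by linarith)
  have hmemU : ∀ (k : Fin d) (s : ℝ), |s| ≤ κ → h + Pi.single k s ∈ U := by
    intro k s hs
    apply hball
    rw [Metric.mem_ball, dist_eq_norm, add_sub_cancel_left]
    refine lt_of_le_of_lt ?_ hκδ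
    rw [pi_norm_le_iff_of_nonneg hκ0.le]
    intro j
    by_cases hjk : j = k
    · rw [hjk, Pi.single_eq_same]
      exact hs
    · rw [Pi.single_eq_of_ne hjk, norm_zero]
      exact hκ0.le
  -- the exceptional events
  let σ : ℕ → ℝ := fun n => κ * (n : ℝ) ^ (b - 1)
  have hσκ : ∀ n : ℕ, 1 ≤ n → σ n ≤ κ := by
    intro n hn
    have hn' : (1 : ℝ) ≤ n := by exact_mod_cast hn
    have h1 : (n : ℝ) ^ (b - 1) ≤ 1 :=
      Real.rpow_le_one_of_one_le_of_nonpos hn' (by linarith)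
    calc κ * (n : ℝ) ^ (b - 1) ≤ κ * 1 := mul_le_mul_of_nonneg_left h1 hκ0.le
      _ = κ := mul_one _
  have hσp : ∀ n : ℕ, 1 ≤ n → 0 < σ n := by
    intro n hn
    have hn' : (0 : ℝ) < n := by exact_mod_cast hn
    exact mul_pos hκ0 (Real.rpow_pos_of_pos hn' _)
  let sg : ℕ → Bool → ℝ := fun n t => if t then σ n else -σ n
  have hsgU : ∀ n : ℕ, 1 ≤ n → ∀ (k : Fin d) (t : Bool), h + Pi.single k (sg n t) ∈ U := by
    intro n hn k t
    apply hmemU
    have h1 := hσκ n hn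
    have h2 := hσp n hn
    cases t
    · show |(-σ n)| ≤ κ
      rw [abs_neg, abs_of_pos h2]
      exact h1
    · show |σ n| ≤ κ
      rw [abs_of_pos h2]
      exact h1
  obtain ⟨N0, hN0⟩ := eventually_atTop.1 ((ev_pow (1 / α) ε (c1 - ξ) hε1).and
    (eventually_ge_atTop (1 : ℕ)))
  have test : ∀ n : ℕ, N0 ≤ n → ∀ h' ∈ U, ∀ (m : ℕ) (z : Fin d → ℤ) (j : ℕ), j ≤ n →
      P {x | (n : ℝ) ^ c1 ≤ |lw ω β h' m z j x - free P ω β h' j|} ≤
        ENNReal.ofReal (2 * Real.exp (|C0| - (n : ℝ) ^ ε)) := by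
    intro n hn h' hh' m z j hj
    obtain ⟨hn1, hn2⟩ := hN0 n hn
    refine (testX hc hi hd P ω hω hexp β hξ hα hU c1 n hn2 h' hh' m z j hj).trans ?_
    apply ENNReal.ofReal_le_ofReal
    rw [sub_eq_add_neg |C0|, Real.exp_add]
    have h1 : |C0| ≤ Real.exp |C0| := by
      have := Real.add_one_le_exp |C0|
      linarith
    have h2 : Real.exp (-(α * (n : ℝ) ^ (c1 - ξ))) ≤ Real.exp (-(n : ℝ) ^ ε) := by
      apply Real.exp_le_exp.2
      apply neg_le_neg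
      calc (n : ℝ) ^ ε = α * (1 / α * (n : ℝ) ^ ε) := by field_simp
        _ ≤ α * (n : ℝ) ^ (c1 - ξ) := mul_le_mul_of_nonneg_left hn1 hα.le
    calc |C0| * Real.exp (-(α * (n : ℝ) ^ (c1 - ξ))) ≤
          Real.exp |C0| * Real.exp (-(n : ℝ) ^ ε) :=
          mul_le_mul h1 h2 (Real.exp_pos _).le (Real.exp_pos _).le
      _ ≤ 2 * (Real.exp |C0| * Real.exp (-(n : ℝ) ^ ε)) := by
          have : 0 < Real.exp |C0| * Real.exp (-(n : ℝ) ^ ε) := by positivity
          linarith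
  let box : ℕ → Finset (Fin d → ℤ) := fun n => Finset.Icc (fun _ => -(n : ℤ)) (fun _ => (n : ℤ))
  let B1 : ℕ → ℕ × Fin d × Bool → Set Ω := fun n t =>
    {x | (n : ℝ) ^ c1 ≤ |lw ω β (h + Pi.single t.2.1 (sg n t.2.2)) 0 0 t.1 x -
      free P ω β (h + Pi.single t.2.1 (sg n t.2.2)) t.1|}
  let B2 : ℕ → ℕ × (Fin d → ℤ) → Set Ω := fun n t =>
    {x | (n : ℝ) ^ c1 ≤ |lw ω β h t.1 t.2 (n - t.1) x - free P ω β h (n - t.1)|}
  let T1 : ℕ → Finset (ℕ × Fin d × Bool) := fun n => Finset.range (n + 1) ×ˢ Finset.univ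
  let T2 : ℕ → Finset (ℕ × (Fin d → ℤ)) := fun n => Finset.range (n + 1) ×ˢ box n
  let S : ℕ → Set Ω := fun n => if N0 ≤ n then (⋃ t ∈ T1 n, B1 n t) ∪ (⋃ t ∈ T2 n, B2 n t) else ∅
  have hbox : ∀ n, ((box n).card : ℝ) = (2 * n + 1) ^ d := by
    intro n
    have h1 : (box n).card = (2 * n + 1) ^ d := by
      show (Finset.Icc (fun _ : Fin d => -(n : ℤ)) (fun _ => (n : ℤ))).card = _
      rw [Pi.card_Icc]
      simp only [Int.card_Icc, Finset.prod_const, Finset.card_univ, Fintype.card_fin]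
      congr 1
      omega
    rw [h1]
    push_cast
    ring
  have hS : ∀ n, P (S n) ≤ ENNReal.ofReal (((2 * d * (n + 1) + (n + 1) * (2 * n + 1) ^ d : ℝ)) *
      (2 * Real.exp (|C0| - (n : ℝ) ^ ε))) := by
    intro n
    by_cases hn : N0 ≤ n
    · show P (if N0 ≤ n then (⋃ t ∈ T1 n, B1 n t) ∪ (⋃ t ∈ T2 n, B2 n t) else ∅) ≤ _
      rw [if_pos hn]
      set p : ENNReal := ENNReal.ofReal (2 * Real.exp (|C0| - (n : ℝ) ^ ε)) with hpd
      have b1 : P (⋃ t ∈ T1 n, B1 n t) ≤ (T1 n).card • p := by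
        refine (measure_biUnion_finset_le _ _).trans (Finset.sum_le_card_nsmul _ _ _ ?_)
        intro t ht
        have ht1 : t.1 < n + 1 := Finset.mem_range.1 (Finset.mem_product.1 ht).1
        exact test n hn _ (hsgU n (hN0 n hn).2 _ _) _ _ _ (by omega)
      have b2 : P (⋃ t ∈ T2 n, B2 n t) ≤ (T2 n).card • p := by
        refine (measure_biUnion_finset_le _ _).trans (Finset.sum_le_card_nsmul _ _ _ ?_)
        intro t ht
        exact test n hn _ hhU _ _ _ (Nat.sub_le _ _)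
      have c1' : ((T1 n).card : ℝ) = 2 * d * (n + 1) := by
        show (((Finset.range (n + 1) ×ˢ (Finset.univ : Finset (Fin d × Bool))).card : ℕ) : ℝ) = _
        rw [Finset.card_product, Finset.card_range, Finset.card_univ, Fintype.card_prod,
          Fintype.card_fin, Fintype.card_bool]
        push_cast
        ring
      have c2' : ((T2 n).card : ℝ) = (n + 1) * (2 * n + 1) ^ d := by
        show (((Finset.range (n + 1) ×ˢ box n).card : ℕ) : ℝ) = _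
        rw [Finset.card_product, Finset.card_range, Nat.cast_mul, hbox]
        push_cast
        ring
      refine (measure_union_le _ _).trans ((add_le_add b1 b2).trans ?_)
      rw [← add_nsmul, nsmul_eq_mul, hpd, ← ENNReal.ofReal_natCast,
        ← ENNReal.ofReal_mul (Nat.cast_nonneg _)]
      apply ENNReal.ofReal_le_ofReal
      rw [Nat.cast_add, c1', c2']
    · show P (if N0 ≤ n then (⋃ t ∈ T1 n, B1 n t) ∪ (⋃ t ∈ T2 n, B2 n t) else ∅) ≤ _
      rw [if_neg hn, measure_empty]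
      exact zero_le
  have hfin : ∑' n, P (S n) ≠ ⊤ := by
    refine ne_top_of_le_ne_top ?_ (ENNReal.tsum_le_tsum hS)
    exact (summ d |C0| ε hε0).tsum_ofReal_ne_top
  filter_upwards [ae_eventually_notMem hfin] with x hx
  filter_upwards [hx, asyX hd C1 κ b c c1 ξ hκ0 hξ hc12 hcc hc1b, eventually_ge_atTop N0]
    with n hxn hasy hn
  have hn1 : 1 ≤ n := (hN0 n hn).2
  have hnp : (0 : ℝ) < n := by exact_mod_cast hn1
  have hxn' : x ∉ (⋃ t ∈ T1 n, B1 n t) ∪ (⋃ t ∈ T2 n, B2 n t) := by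
    have h1 : x ∉ (if N0 ≤ n then (⋃ t ∈ T1 n, B1 n t) ∪ (⋃ t ∈ T2 n, B2 n t) else ∅) := hxn
    rwa [if_pos hn] at h1
  rw [Set.mem_union, not_or] at hxn'
  obtain ⟨x1, x2⟩ := hxn'
  have y1 : ∀ i ≤ n, ∀ (k : Fin d) (t : Bool),
      |lw ω β (h + Pi.single k (sg n t)) 0 0 i x - free P ω β (h + Pi.single k (sg n t)) i| <
        (n : ℝ) ^ c1 := by
    intro i hi k t
    by_contra hcon
    push Not at hcon
    apply x1
    rw [Set.mem_iUnion₂]
    refine ⟨(i, k, t), ?_, hcon⟩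
    exact Finset.mem_product.2 ⟨Finset.mem_range.2 (by show i < n + 1; omega), Finset.mem_univ _⟩
  have y2 : ∀ i ≤ n, ∀ z : Fin d → ℤ, (∀ j, |z j| ≤ n) →
      |lw ω β h i z (n - i) x - free P ω β h (n - i)| < (n : ℝ) ^ c1 := by
    intro i hi z hz
    by_contra hcon
    push Not at hcon
    apply x2
    rw [Set.mem_iUnion₂]
    refine ⟨(i, z), ?_, hcon⟩
    refine Finset.mem_product.2 ⟨Finset.mem_range.2 (by show i < n + 1; omega), ?_⟩
    show z ∈ Finset.Icc (fun _ : Fin d => -(n : ℤ)) (fun _ => (n : ℤ))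
    rw [Finset.mem_Icc]
    exact ⟨fun j => (abs_le.1 (hz j)).1, fun j => (abs_le.1 (hz j)).2⟩
  have hσ0 : 0 < σ n := hσp n hn1
  have hσ1 : σ n ≤ 1 := (hσκ n hn1).trans hκ1
  have hdet := det (β := β) (h := h) (v := v) (η := fun i y => ω i y x) (n := n)
    (fr := fun h n => free P ω β h n) (φ := φ) (C := C) (E := (n : ℝ) ^ c1) (R := (n : ℝ) ^ b)
    (σ := σ n) (Er := C1 * (n : ℝ) ^ ξ * Real.log (n + 1)) hp hd
    (fun h n => hfr h n) (hC1 h hhU n) hcurv hC hσ0 hσ1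
    (by
      have h1 := y2 0 (Nat.zero_le _) 0 (fun j => by simp)
      rw [Nat.sub_zero, lw_zero] at h1
      have h2 := (abs_lt.1 h1).1
      linarith)
    (by
      intro i hi k s hs
      rcases hs with rfl | rfl
      · have h1 := y1 i hi k true
        rw [lw_zero] at h1
        have h2 := (abs_lt.1 h1).2
        have e : sg n true = σ n := rfl
        rw [e] at h2
        linarith
      · have h1 := y1 i hi k false
        rw [lw_zero] at h1
        have h2 := (abs_lt.1 h1).2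
        have e : sg n false = -σ n := rfl
        rw [e] at h2
        linarith)
    (by
      intro i hi z hz
      have h1 := (abs_lt.1 (y2 i hi z hz)).2
      have e : Real.log (part β h (fun j y => ω (i + j) (z + y) x) (n - i) Set.univ) =
        lw ω β h i z (n - i) x := rfl
      show Real.log (part β h (fun j y => ω (i + j) (z + y) x) (n - i) Set.univ) ≤ _
      rw [e]
      linarith)
  refine le_trans ?_ hdet
  have hexp1 : -(σ n * (n : ℝ) ^ b) + C * n * (σ n) ^ 2 ≤ -(κ / 2 * (n : ℝ) ^ (2 * b - 1)) := by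
    have e1 : σ n * (n : ℝ) ^ b = κ * (n : ℝ) ^ (2 * b - 1) := by
      show κ * (n : ℝ) ^ (b - 1) * (n : ℝ) ^ b = _
      rw [mul_assoc, ← Real.rpow_add hnp]
      congr 2
      ring
    have e2 : (n : ℝ) * (σ n) ^ 2 = κ ^ 2 * (n : ℝ) ^ (2 * b - 1) := by
      show (n : ℝ) * (κ * (n : ℝ) ^ (b - 1)) ^ 2 = _
      have e3 : (n : ℝ) ^ (2 * b - 1) = n * ((n : ℝ) ^ (b - 1)) ^ 2 := by
        rw [← Real.rpow_natCast, ← Real.rpow_mul hnp.le]
        nth_rewrite 2 [← Real.rpow_one (n : ℝ)]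
        rw [← Real.rpow_add hnp]
        congr 1
        push_cast
        ring
      rw [e3]
      ring
    have hX : 0 ≤ κ * (n : ℝ) ^ (2 * b - 1) := by positivity
    have h3 : C * κ * (κ * (n : ℝ) ^ (2 * b - 1)) ≤ 1 / 2 * (κ * (n : ℝ) ^ (2 * b - 1)) :=
      mul_le_mul_of_nonneg_right hκC hX
    calc -(σ n * (n : ℝ) ^ b) + C * n * (σ n) ^ 2 =
          -(σ n * (n : ℝ) ^ b) + C * (n * (σ n) ^ 2) := by ring
      _ = -(κ * (n : ℝ) ^ (2 * b - 1)) + C * κ * (κ * (n : ℝ) ^ (2 * b - 1)) := by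
          rw [e1, e2]; ring
      _ ≤ _ := by linarith
  have hfinal : 2 * (d : ℝ) * (n + 1) * Real.exp (-(σ n * (n : ℝ) ^ b) + C * n * (σ n) ^ 2 +
      3 * (n : ℝ) ^ c1 + C1 * (n : ℝ) ^ ξ * Real.log (n + 1)) ≤ Real.exp (-(n : ℝ) ^ c) := by
    refine le_trans ?_ hasy
    apply mul_le_mul_of_nonneg_left _ (by positivity)
    apply Real.exp_le_exp.2
    linarith
  linarith

end Pool.Agent.N427.SE.UPX
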